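import Pool.Agent.Helper59.AN.Goals
import Pool.Agent.Helper30.NU.NAT
import Pool.Agent.Helper97.NU.OMG
import Pool.Agent.Helper60.NU.EX1

/-! # The value of the statement is `⊤` -/

noncomputable section

namespace AN.PkPHI

open Pool.Agent.Helper97.Ku NU BSet

section Gen

variable {L : Type} [CompleteBooleanAlgebra L]

theorem iffV_comm (a b : L) : iffV a b = iffV b a := by
  unfold iffV; exact inf_comm _ _

theorem iffV_self (a : L) : iffV a a = ⊤ := by
  unfold iffV; rw [himp_self, inf_idem]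

theorem ext_ap (R' t : BSet L) : BSet.Ext (fun x => apV R' t x) :=
  ((NU.PkEX1.ex1 L).2.1 R' t).2.2

theorem ext_ap' (R' t : BSet L) : BSet.Ext (fun x => apV R' x t) :=
  ((NU.PkEX1.ex1 L).2.1 R' t).2.1

theorem ext_iff {φ ψ : BSet L → L} (h : Ext φ) (k : Ext ψ) : Ext (fun x => iffV (φ x) (ψ x)) :=
  Ext.inf (Ext.himp h k) (Ext.himp k h)

theorem ext_sec (R' Y : BSet L) : BSet.Ext (fun u => secV omN R' u Y) := by
  unfold secV
  exact Ext.iInf fun x => ext_iff (Ext.const _) (Ext.inf (Ext.const _) (ext_ap' R' x))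

theorem xr_ap (rn : G_RN) (R' t : BSet L) : XR (fun a => apV R' t (rN a)) := by
  intro a b
  obtain ⟨-, -, rn3, -, -⟩ := rn L
  rw [← rn3]
  exact ext_ap R' t (rN a) (rN b)

theorem xr_compl {y : (ℕ → L) → L} (h : XR y) : XR (fun a => (y a)ᶜ) := by
  intro a b
  rw [le_compl_iff_disjoint_right, disjoint_iff_inf_le]
  have h3 := h b a
  have h4 : (⨅ n, iffV (b n) (a n)) = ⨅ n, iffV (a n) (b n) :=
    iInf_congr fun n => iffV_comm _ _
  rw [h4] at h3
  calc ((⨅ n, iffV (a n) (b n)) ⊓ (y a)ᶜ) ⊓ y b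
      ≤ y a ⊓ (y a)ᶜ := le_inf (le_trans (le_inf (inf_le_left.trans inf_le_left) inf_le_right)
        h3) (inf_le_left.trans inf_le_right)
    _ ≤ ⊥ := by rw [inf_compl_self]

theorem xr_un {c : ℕ → L} {y : ℕ → (ℕ → L) → L} (h : ∀ n, XR (y n)) :
    XR (fun a => ⨆ n, (c n ⊓ y n a)) := by
  intro a b
  rw [inf_iSup_eq]
  refine iSup_mono fun n => le_inf (inf_le_right.trans inf_le_left) ?_
  exact le_trans (le_inf inf_le_left (inf_le_right.trans inf_le_right)) (h n a b)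

/-- The names of the indices. -/
def nm {X : Type} (r : X → Set ℕ) : ℕ ⊕ X → BSet L := Sum.elim nn fun x => rN (ch (r x))

theorem core (ana : G_ANA) (sig : G_SIG) (unc : G_UNC) (rq : G_RQ)
    (hccc : CccL L) {X : Type} (hX : Uncountable X) (r : X → Set ℕ) (hr : Function.Injective r)
    (H : ∀ R' : BSet L, ∃ (V : Set ((ℕ → L) → L)) (γ : ℕ → Finset ℕ → Finset ℕ → L),
      (∀ y ∈ V, XR y) ∧ (∀ y ∈ V, (fun a => (y a)ᶜ) ∈ V) ∧
      (∀ (c : ℕ → L) (y : ℕ → (ℕ → L) → L), (∀ n, y n ∈ V) →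
        (fun a => ⨆ n, (c n ⊓ y n a)) ∈ V) ∧
      (∀ u, (fun a => apV R' (nm r u) (rN a)) ∈ V) ∧
      ∀ z ∈ V, (⨅ a, iffV (beta γ a) (z a)) = ⊥) : phiV L = ⊤ := by
  obtain ⟨-, -, -, -, rq5, rq6⟩ := rq L
  unfold phiV
  rw [eq_top_iff]
  refine le_iSup_of_le omN (le_inf (NU.PkOMG.omg NU.PkNAT.nat _).ge
    (le_iSup_of_le (uN r) (le_inf ?_ (le_inf ?_ (le_iInf fun R' => ?_)))))
  · refine le_iInf fun n => ?_
    rw [le_himp_iff, top_inf_eq]
    exact iSup_le fun m => le_iSup_of_le (Sum.inl m) le_rfl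
  · rw [unc _ hccc X hX r hr, compl_bot]
  · obtain ⟨V, γ, h1, h2, h3, h4, h5⟩ := H R'
    obtain ⟨hbx, hba⟩ := ana L γ
    have hsig : sigV omN (SN V) = ⊤ := sig _ hccc V ⟨_, h4 (Sum.inl 0)⟩ h1 h2 h3
    refine le_iSup_of_le (YN (beta γ)) (le_inf hba.ge (le_iSup_of_le (SN V) (le_inf hsig.ge
      (le_inf ?_ ?_))))
    · have hx : BSet.Ext (fun u => ⨆ Y : BSet L, (Y.mem (SN V) ⊓ secV omN R' u Y)) :=
        Ext.iSup fun Y => Ext.inf (Ext.const _) (ext_sec R' Y)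
      rw [iInf_mem (uN r) _ hx]
      refine le_iInf fun u => ?_
      rw [le_himp_iff, top_inf_eq]
      refine le_trans le_top (le_iSup_of_le (YN fun a => apV R' (nm r u) (rN a)) (le_inf ?_ ?_))
      · refine le_iSup_of_le ⟨_, h4 u⟩ (le_inf le_top ?_)
        rw [BSet.eq_refl]
      · have h6 := rq6 (fun a => apV R' (nm r u) (rN a)) (fun t => apV R' (nm r u) t)
          (h1 _ (h4 u)) (ext_ap R' (nm r u))
        refine le_of_eq (Eq.trans ?_ h6.symm)
        simp only [iffV_self, iInf_top]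
    · have h0 : (YN (beta γ)).mem (SN V) = ⊥ := by
        rw [eq_bot_iff]
        refine iSup_le fun z => inf_le_right.trans ?_
        rw [rq5 _ _ hbx (h1 _ z.2), h5 _ z.2]
      rw [h0, compl_bot]

end Gen

theorem phi (comb : G_COMB) (val : G_VAL) (eq : G_EQ) (ana : G_ANA) (sig : G_SIG) (unc : G_UNC)
    (rq : G_RQ) (rn : G_RN) (ccc : G_CCC) : G_PHI := by
  intro X _ hX R
  refine core ana sig unc rq (ccc X R (Ix X)) hX.unc R.r R.inj fun R' => ?_
  obtain ⟨i, F, hv, hc, hu, hs⟩ := comb X hX R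
    (fun u x => apV R' (nm R.r u) (rN (ch (R.r x))))
  obtain ⟨γ, hγ⟩ := val (RO (Cd R (Ix X))) (fun s σ => gv R (Vx.a i s σ))
  have hbeta : ∀ x, beta γ (ch (R.r x)) = gv R (Vx.g i x []) := by
    intro x
    refine hγ (R.r x) (fun s => gv R (Vx.g i x s)) ?_ ?_ ?_
    · refine Subrelation.wf (r := InvImage (fun x y : X => x < y) (R.rk x)) ?_
        (InvImage.wf (R.rk x) hX.wf)
      rintro t s ⟨h, n, rfl⟩
      exact R.lt x s n ((R.cod x s).1 h)
    · intro s h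
      exact (eq X R (Ix X) i x s).1 ((R.cod x s).1 h)
    · intro s h
      exact (eq X R (Ix X) i x s).2 (mt (R.cod x s).2 h)
  refine ⟨{y | XR y ∧ (fun x => y (ch (R.r x))) ∈ F}, γ, fun y hy => hy.1, ?_, ?_, ?_, ?_⟩
  · rintro y ⟨h1, h2⟩
    exact ⟨xr_compl h1, hc _ h2⟩
  · intro c y hy
    exact ⟨xr_un fun n => (hy n).1, hu c (fun n x => y n (ch (R.r x))) fun n => (hy n).2⟩
  · exact fun u => ⟨xr_ap rn R' _, hv u⟩
  · rintro z ⟨-, h2⟩
    rw [eq_bot_iff]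
    refine le_trans (le_iInf fun x => ?_) (hs _ h2).le
    rw [← hbeta x]
    exact iInf_le (fun a => iffV (beta γ a) (z a)) (ch (R.r x))

end AN.PkPHI
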